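import Mathlib
import Pool.Agent.H.MP_0d317a_lc.C

set_option autoImplicit false

namespace Pool.Agent.Results.MP_8fdcc7_lc.Yes

open Pool.Agent.H.MP_0d317a_lc

theorem result (hd : H.MP_2e4b78_lc.Dia) : ∃ U : Ultrafilter ℕ, (∀ n, {n} ∉ U) ∧ ¬ Pp U ∧
    Tk (Sst U) (Sup U) ∧ ¬ Tk (Sup U) (Sst U) ∧ Tk Fc (Sup U) ∧ ¬ Tk Fc (Sst U) := by
  obtain ⟨U, V, -, -, -, -, ⟨f, t⟩, h, n, p⟩ := main hd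
  refine ⟨_, n, p, ⟨id, fun S r ⟨b, w⟩ => r ⟨b, fun x v => Set.finite_empty.subset fun m u =>
    u.2 (w x ⟨x, v, rfl⟩ u.1)⟩⟩, fun ⟨g, k⟩ => h ⟨g ∘ f, fun S r => ?_⟩, ⟨f, t⟩, h⟩
  exact Set.image_comp g f S ▸ k _ (t S r)

end Pool.Agent.Results.MP_8fdcc7_lc.Yes
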